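import Pool.Agent.Helper53.BQ.SLb

/-!
# Row SL: the scale exists
-/

set_option autoImplicit false

namespace Pool.Agent.Helper53.BQ

open MeasureTheory Set Filter Topology
open Pool.Agent.Helper31.BQ

/-- `t` cut to `[0, 1]` -/
noncomputable def clm (t : ℝ) : ℝ := max 0 (min t 1)

theorem clm_meas : Measurable clm := by
  unfold clm
  fun_prop

theorem clm_nonneg (t : ℝ) : 0 ≤ clm t := le_max_left _ _

theorem clm_le (t : ℝ) : clm t ≤ 1 := max_le zero_le_one (min_le_right _ _)

/-- the multiplier -/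
noncomputable def mm (l : ℝ) (t : ℝ) : ℝ := Real.exp (-(l * (1 - clm t)))

/-- its inverse -/
noncomputable def mi (l : ℝ) (t : ℝ) : ℝ := Real.exp (l * (1 - clm t))

theorem mm_meas (l : ℝ) : Measurable (mm l) := by
  have := clm_meas
  unfold mm
  fun_prop

theorem mi_meas (l : ℝ) : Measurable (mi l) := by
  have := clm_meas
  unfold mi
  fun_prop

theorem mm_bd {l : ℝ} (hl : 0 ≤ l) (t : ℝ) : |mm l t| ≤ 1 := by
  unfold mm
  rw [abs_of_pos (Real.exp_pos _), Real.exp_le_one_iff]
  have := mul_nonneg hl (sub_nonneg.2 (clm_le t))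
  linarith

theorem mi_bd {l : ℝ} (hl : 0 ≤ l) (t : ℝ) : |mi l t| ≤ Real.exp l := by
  unfold mi
  rw [abs_of_pos (Real.exp_pos _), Real.exp_le_exp]
  have := mul_nonneg hl (clm_nonneg t)
  linarith

theorem mm_mi (l t : ℝ) : mm l t * mi l t = 1 := by
  unfold mm mi
  rw [← Real.exp_add]
  simp

theorem mi_mm (l t : ℝ) : mi l t * mm l t = 1 := by
  rw [mul_comm, mm_mi]

/-- the operator `J` -/
noncomputable def JJ {l : ℝ} (hl : 0 ≤ l) : HH →L[ℝ] HH := mop (mm l) (mm_meas l) 1 (mm_bd hl)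

/-- its inverse -/
noncomputable def JI {l : ℝ} (hl : 0 ≤ l) : HH →L[ℝ] HH :=
  mop (mi l) (mi_meas l) (Real.exp l) (mi_bd hl)

theorem JJ_JI {l : ℝ} (hl : 0 ≤ l) (f : HH) : JJ hl (JI hl f) = f :=
  mop_inv _ _ _ _ (mm_mi l) f

theorem JI_JJ {l : ℝ} (hl : 0 ≤ l) (f : HH) : JI hl (JJ hl f) = f :=
  mop_inv _ _ _ _ (mi_mm l) f

/-- the operators `T` -/
noncomputable def TT {l : ℝ} (hl : 0 ≤ l) (N : ℕ) : HH →L[ℝ] HH :=
  (JI hl).comp ((SS N).comp (JJ hl))

theorem TT_apply {l : ℝ} (hl : 0 ≤ l) (N : ℕ) (x : HH) : TT hl N x =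
    ∑ i ∈ Finset.range (N - 2), (inner ℝ (JJ hl (bb N i)) x : ℝ) • JI hl (bb N (i + 2)) := by
  unfold TT
  rw [ContinuousLinearMap.comp_apply, ContinuousLinearMap.comp_apply, SS_apply, map_sum]
  refine Finset.sum_congr rfl fun i _ => ?_
  rw [map_smul]
  congr 1
  exact mop_self _ _ _ _

theorem TT_norm {l : ℝ} (hl : 0 ≤ l) (N : ℕ) (hN : 0 < N) : ‖TT hl N‖ ≤ Real.exp (-(l / N)) := by
  have hN' : (0 : ℝ) < N := by exact_mod_cast hN
  refine ContinuousLinearMap.opNorm_le_bound _ (Real.exp_pos _).le fun x => ?_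
  rw [TT_apply]
  refine OL (Finset.range (N - 2)) (fun i => JJ hl (bb N i)) (fun i => JI hl (bb N (i + 2)))
    _ (Real.exp_pos _).le (fun i _ j _ hij => bb_orth _ _ hN hij)
    (fun i _ j _ hij => bb_orth _ _ hN (by omega)) (fun i hi => ?_) x
  have hi1 := Finset.mem_range.1 hi
  have e1 : ‖JJ hl (bb N i)‖ ≤ Real.exp (-(l * (1 - ((i : ℝ) + 1) / N))) := by
    have h1 := mop_loc (mm_meas l) (mm_bd hl) (bb N i)
      (c := Real.exp (-(l * (1 - ((i : ℝ) + 1) / N)))) (by
        filter_upwards [bb_supp N i] with t ht h0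
        obtain ⟨_, a2⟩ := ht h0
        unfold mm
        rw [abs_of_pos (Real.exp_pos _), Real.exp_le_exp]
        have a3 : clm t ≤ ((i : ℝ) + 1) / N := by
          unfold clm
          exact max_le (by positivity) ((min_le_left _ _).trans a2)
        have a4 := mul_le_mul_of_nonneg_left a3 hl
        linarith)
    rwa [bb_norm N i (by omega), mul_one] at h1
  have e2 : ‖JI hl (bb N (i + 2))‖ ≤ Real.exp (l * (1 - ((i : ℝ) + 2) / N)) := by
    have h1 := mop_loc (mi_meas l) (mi_bd hl) (bb N (i + 2))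
      (c := Real.exp (l * (1 - ((i : ℝ) + 2) / N))) (by
        filter_upwards [bb_supp N (i + 2)] with t ht h0
        obtain ⟨a1, _⟩ := ht h0
        unfold mi
        rw [abs_of_pos (Real.exp_pos _), Real.exp_le_exp]
        have a3 : ((i : ℝ) + 2) / N ≤ clm t := by
          unfold clm
          refine le_max_of_le_right (le_min ?_ ?_)
          · refine le_trans (le_of_eq ?_) a1.le
            push_cast
            ring
          · rw [div_le_one hN']
            have : i + 2 ≤ N := by omega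
            exact_mod_cast this
        have a4 := mul_le_mul_of_nonneg_left a3 hl
        linarith)
    rwa [bb_norm N (i + 2) (by omega), mul_one] at h1
  calc ‖JJ hl (bb N i)‖ * ‖JI hl (bb N (i + 2))‖ ≤
        Real.exp (-(l * (1 - ((i : ℝ) + 1) / N))) * Real.exp (l * (1 - ((i : ℝ) + 2) / N)) :=
          mul_le_mul e1 e2 (norm_nonneg _) (Real.exp_pos _).le
    _ = Real.exp (-(l / N)) := by
        rw [← Real.exp_add]
        congr 1
        field_simp
        ring

theorem TT_fin {l : ℝ} (hl : 0 ≤ l) (N : ℕ) :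
    FiniteDimensional ℝ (LinearMap.range (TT hl N : HH →ₗ[ℝ] HH)) := by
  classical
  have h1 : LinearMap.range (TT hl N : HH →ₗ[ℝ] HH) ≤
      Submodule.span ℝ (((Finset.range (N - 2)).image fun i => JI hl (bb N (i + 2)) :
        Finset HH) : Set HH) := by
    rintro _ ⟨x, rfl⟩
    rw [ContinuousLinearMap.coe_coe, TT_apply]
    refine Submodule.sum_mem _ fun i hi => Submodule.smul_mem _ _ (Submodule.subset_span ?_)
    exact Finset.mem_coe.2 (Finset.mem_image_of_mem _ hi)
  have h2 : FiniteDimensional ℝ (Submodule.span ℝ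
      (((Finset.range (N - 2)).image fun i => JI hl (bb N (i + 2)) : Finset HH) : Set HH)) :=
    FiniteDimensional.span_finset ℝ _
  exact Submodule.finiteDimensional_of_le h1

/-- the constant function -/
noncomputable def w1 : HH := indicatorConstLp 2 (MeasurableSet.univ) (measure_ne_top mu _) (1 : ℝ)

theorem w1_norm : ‖w1‖ = 1 := by
  have h : ‖w1‖ ^ 2 = 1 := by
    rw [← real_inner_self_eq_norm_sq]
    unfold w1
    rw [L2.real_inner_indicatorConstLp_one_indicatorConstLp_one, inter_self]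
    simp [Measure.real]
  have h5 := norm_nonneg w1
  nlinarith

theorem lk_nonneg (k : ℕ) : 0 ≤ Real.log ((k : ℝ) + 2) :=
  Real.log_nonneg (by have : (0 : ℝ) ≤ k := Nat.cast_nonneg k; linarith)

theorem st_SL : ST_SL := by
  refine ⟨HH, inferInstance, inferInstance, fun k => JJ (lk_nonneg k),
    fun k => JI (lk_nonneg k) w1, w1, fun n => SS (n + 1),
    fun n k => TT (lk_nonneg k) (n + 1), inferInstance, SL_sep, w1_norm,
    fun k => mop_norm _ _ _ _, fun k => JJ_JI _ _, fun k => ?_, fun n k => ?_, fun n k => ?_,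
    fun n k => TT_fin _ _, fun n => ?_, fun k x => ?_⟩
  · have h1 := (JI (lk_nonneg k)).le_opNorm w1
    have h2 : ‖JI (lk_nonneg k)‖ ≤ Real.exp (Real.log ((k : ℝ) + 2)) := mop_norm _ _ _ _
    rw [Real.exp_log (by positivity)] at h2
    rw [w1_norm, mul_one] at h1
    exact h1.trans h2
  · ext1 x
    show JJ (lk_nonneg k) (JI (lk_nonneg k) (SS (n + 1) (JJ (lk_nonneg k) x))) =
      SS (n + 1) (JJ (lk_nonneg k) x)
    exact JJ_JI _ _
  · refine (TT_norm (lk_nonneg k) (n + 1) (by omega)).trans ?_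
    rw [Real.exp_le_one_iff]
    have := lk_nonneg k
    have h2 : 0 ≤ Real.log ((k : ℝ) + 2) / ((n + 1 : ℕ) : ℝ) := by positivity
    linarith
  · refine squeeze_zero (fun k => norm_nonneg _)
      (fun k => TT_norm (lk_nonneg k) (n + 1) (by omega)) ?_
    refine Real.tendsto_exp_neg_atTop_nhds_zero.comp ?_
    refine Tendsto.atTop_div_const (by positivity) ?_
    refine Real.tendsto_log_atTop.comp ?_
    exact tendsto_atTop_add_const_right _ _ tendsto_natCast_atTop_atTop
  · have h1 : Tendsto (fun n : ℕ => JI (lk_nonneg k) (SS (n + 1) (JJ (lk_nonneg k) x))) atTop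
        (𝓝 (JI (lk_nonneg k) (JJ (lk_nonneg k) x))) :=
      ((JI (lk_nonneg k)).continuous.tendsto _).comp (SS_tendsto _)
    rw [JI_JJ] at h1
    exact h1

end Pool.Agent.Helper53.BQ
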