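import Pool.Agent.Helper31.BQ.Stmts

/-!
# Row SL, part a: the Hilbert space, multiplications, step functions
-/

set_option autoImplicit false

namespace Pool.Agent.Helper53.BQ

open MeasureTheory Set Filter Topology

/-- Lebesgue measure on `(0, 1]` -/
noncomputable abbrev mu : Measure ℝ := volume.restrict (Ioc 0 1)

/-- the Hilbert space -/
abbrev HH : Type := Lp ℝ 2 mu

instance SL_prob : IsProbabilityMeasure mu := ⟨by simp [mu]⟩

theorem SL_sep : TopologicalSpace.SeparableSpace HH := by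
  have : Fact ((2 : ENNReal) ≠ ⊤) := ⟨by norm_num⟩
  have h := MeasureTheory.Lp.SecondCountableTopology (μ := mu) (E := ℝ) (p := 2)
  infer_instance

theorem SL_mem {φ : ℝ → ℝ} (hφ : Measurable φ) {C : ℝ} (hC : ∀ t, |φ t| ≤ C) (f : HH) :
    MemLp (fun t => φ t * (f : ℝ → ℝ) t) 2 mu := by
  refine (Lp.memLp f).of_le_mul (c := C)
    (hφ.aestronglyMeasurable.mul (Lp.aestronglyMeasurable f)) (ae_of_all _ fun t => ?_)
  rw [norm_mul]
  exact mul_le_mul_of_nonneg_right (hC t) (norm_nonneg _)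

/-- multiplication by a bounded function -/
noncomputable def mop (φ : ℝ → ℝ) (hφ : Measurable φ) (C : ℝ) (hC : ∀ t, |φ t| ≤ C) :
    HH →L[ℝ] HH :=
  LinearMap.mkContinuous
    { toFun := fun f => MemLp.toLp (fun t => φ t * (f : ℝ → ℝ) t) (SL_mem hφ hC f)
      map_add' := fun f g => by
        rw [← MemLp.toLp_add]
        refine MemLp.toLp_congr _ _ ?_
        filter_upwards [Lp.coeFn_add f g] with t ht
        simp only [ht, Pi.add_apply]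
        ring
      map_smul' := fun r f => by
        rw [RingHom.id_apply, ← MemLp.toLp_const_smul]
        refine MemLp.toLp_congr _ _ ?_
        filter_upwards [Lp.coeFn_smul r f] with t ht
        simp only [ht, Pi.smul_apply, smul_eq_mul]
        ring } C (fun f => by
      refine Lp.norm_le_mul_norm_of_ae_le_mul ?_
      filter_upwards [MemLp.coeFn_toLp (SL_mem hφ hC f)] with t ht
      simp only [LinearMap.coe_mk, AddHom.coe_mk]
      rw [ht, norm_mul]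
      exact mul_le_mul_of_nonneg_right (hC t) (norm_nonneg _))

theorem mop_coe (φ : ℝ → ℝ) (hφ : Measurable φ) (C : ℝ) (hC : ∀ t, |φ t| ≤ C) (f : HH) :
    (mop φ hφ C hC f : ℝ → ℝ) =ᵐ[mu] fun t => φ t * (f : ℝ → ℝ) t :=
  MemLp.coeFn_toLp (SL_mem hφ hC f)

theorem mop_norm (φ : ℝ → ℝ) (hφ : Measurable φ) (C : ℝ) (hC : ∀ t, |φ t| ≤ C) :
    ‖mop φ hφ C hC‖ ≤ C :=
  LinearMap.mkContinuous_norm_le _ ((abs_nonneg _).trans (hC 0)) _

theorem mop_inv {φ ψ : ℝ → ℝ} (hφ : Measurable φ) {C : ℝ} (hC : ∀ t, |φ t| ≤ C)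
    (hψ : Measurable ψ) {D : ℝ} (hD : ∀ t, |ψ t| ≤ D) (h : ∀ t, φ t * ψ t = 1) (f : HH) :
    mop φ hφ C hC (mop ψ hψ D hD f) = f := by
  refine Lp.ext ?_
  filter_upwards [mop_coe φ hφ C hC (mop ψ hψ D hD f), mop_coe ψ hψ D hD f] with t h1 h2
  rw [h1, h2, ← mul_assoc, h t, one_mul]

theorem mop_self {φ : ℝ → ℝ} (hφ : Measurable φ) {C : ℝ} (hC : ∀ t, |φ t| ≤ C) (f g : HH) :
    inner ℝ f (mop φ hφ C hC g) = inner ℝ (mop φ hφ C hC f) g := by
  rw [L2.inner_def, L2.inner_def]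
  refine integral_congr_ae ?_
  filter_upwards [mop_coe φ hφ C hC f, mop_coe φ hφ C hC g] with t h1 h2
  rw [h1, h2]
  simp only [RCLike.inner_apply, conj_trivial]
  ring

theorem mop_loc {φ : ℝ → ℝ} (hφ : Measurable φ) {C : ℝ} (hC : ∀ t, |φ t| ≤ C) (f : HH)
    {c : ℝ} (h : ∀ᵐ t ∂mu, (f : ℝ → ℝ) t ≠ 0 → |φ t| ≤ c) :
    ‖mop φ hφ C hC f‖ ≤ c * ‖f‖ := by
  refine Lp.norm_le_mul_norm_of_ae_le_mul ?_
  filter_upwards [mop_coe φ hφ C hC f, h] with t h1 h2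
  rw [h1, norm_mul]
  by_cases h0 : (f : ℝ → ℝ) t = 0
  · rw [h0]
    simp
  · exact mul_le_mul_of_nonneg_right (h2 h0) (norm_nonneg _)

/-- the normalized indicator function of `(i/N, (i+1)/N]` -/
noncomputable def bb (N i : ℕ) : HH :=
  √(N : ℝ) • indicatorConstLp 2 (measurableSet_Ioc (a := (i : ℝ) / N) (b := ((i : ℝ) + 1) / N))
    (measure_ne_top mu _) (1 : ℝ)

theorem bb_coe (N i : ℕ) : (bb N i : ℝ → ℝ) =ᵐ[mu] fun t =>
    √(N : ℝ) * (Ioc ((i : ℝ) / N) (((i : ℝ) + 1) / N)).indicator (fun _ => (1 : ℝ)) t := by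
  unfold bb
  refine (Lp.coeFn_smul _ _).trans ?_
  filter_upwards [indicatorConstLp_coeFn (p := 2)
    (hs := measurableSet_Ioc (a := (i : ℝ) / N) (b := ((i : ℝ) + 1) / N))
    (hμs := measure_ne_top mu _) (c := (1 : ℝ))] with t ht
  rw [Pi.smul_apply, ht, smul_eq_mul]

theorem bb_supp (N i : ℕ) : ∀ᵐ t ∂mu, (bb N i : ℝ → ℝ) t ≠ 0 →
    (i : ℝ) / N < t ∧ t ≤ ((i : ℝ) + 1) / N := by
  filter_upwards [bb_coe N i] with t ht h
  rw [ht] at h
  by_contra hc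
  apply h
  rw [indicator_of_notMem, mul_zero]
  rintro ⟨h1, h2⟩
  exact hc ⟨h1, h2⟩

theorem bb_orth {φ : ℝ → ℝ} (hφ : Measurable φ) {C : ℝ} (hC : ∀ t, |φ t| ≤ C) {N i j : ℕ}
    (hN : 0 < N) (hij : i ≠ j) :
    inner ℝ (mop φ hφ C hC (bb N i)) (mop φ hφ C hC (bb N j)) = 0 := by
  rw [L2.inner_def]
  refine integral_eq_zero_of_ae ?_
  filter_upwards [mop_coe φ hφ C hC (bb N i), mop_coe φ hφ C hC (bb N j), bb_supp N i,
    bb_supp N j] with t h1 h2 h3 h4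
  rw [h1, h2]
  simp only [RCLike.inner_apply, conj_trivial, Pi.zero_apply]
  by_cases h5 : (bb N i : ℝ → ℝ) t = 0
  · rw [h5]
    ring
  by_cases h6 : (bb N j : ℝ → ℝ) t = 0
  · rw [h6]
    ring
  exfalso
  obtain ⟨a1, a2⟩ := h3 h5
  obtain ⟨b1, b2⟩ := h4 h6
  have hN' : (0 : ℝ) < N := by exact_mod_cast hN
  have c1 := a1.trans_le b2
  have c2 := b1.trans_le a2
  rw [div_lt_div_iff_of_pos_right hN'] at c1 c2
  have d1 : i < j + 1 := by exact_mod_cast c1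
  have d2 : j < i + 1 := by exact_mod_cast c2
  omega

theorem OL_py {E : Type*} [NormedAddCommGroup E] [InnerProductSpace ℝ E] (s : Finset ℕ)
    (d : ℕ → E) (hd : ∀ i ∈ s, ∀ j ∈ s, i ≠ j → inner ℝ (d i) (d j) = 0) (r : ℕ → ℝ) :
    ‖∑ i ∈ s, r i • d i‖ ^ 2 = ∑ i ∈ s, r i ^ 2 * ‖d i‖ ^ 2 := by
  rw [← real_inner_self_eq_norm_sq, sum_inner]
  refine Finset.sum_congr rfl fun i hi => ?_
  rw [inner_sum, Finset.sum_eq_single i]
  · rw [inner_smul_left, inner_smul_right, real_inner_self_eq_norm_sq]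
    simp only [conj_trivial]
    ring
  · intro j hj hji
    rw [inner_smul_left, inner_smul_right, hd i hi j hj (Ne.symm hji)]
    simp
  · intro h
    exact absurd hi h

theorem OL {E : Type*} [NormedAddCommGroup E] [InnerProductSpace ℝ E] (s : Finset ℕ)
    (a d : ℕ → E) (c : ℝ) (hc : 0 ≤ c)
    (ha : ∀ i ∈ s, ∀ j ∈ s, i ≠ j → inner ℝ (a i) (a j) = 0)
    (hd : ∀ i ∈ s, ∀ j ∈ s, i ≠ j → inner ℝ (d i) (d j) = 0)
    (hcd : ∀ i ∈ s, ‖a i‖ * ‖d i‖ ≤ c) (x : E) :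
    ‖∑ i ∈ s, (inner ℝ (a i) x : ℝ) • d i‖ ≤ c * ‖x‖ := by
  set α : ℕ → ℝ := fun i => inner ℝ (a i) x with hα
  set D := ‖∑ i ∈ s, α i • d i‖ with hD
  have h1 : D ^ 2 = ∑ i ∈ s, α i ^ 2 * ‖d i‖ ^ 2 := OL_py s d hd α
  set y := ∑ i ∈ s, (α i * ‖d i‖ ^ 2) • a i with hy
  have h2 : inner ℝ y x = D ^ 2 := by
    rw [h1, hy, sum_inner]
    refine Finset.sum_congr rfl fun i _ => ?_
    rw [inner_smul_left]
    simp only [conj_trivial]
    show α i * ‖d i‖ ^ 2 * α i = _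
    ring
  have h3 : ‖y‖ ^ 2 ≤ (c * D) ^ 2 := by
    rw [hy, OL_py s a ha, mul_pow, h1, Finset.mul_sum]
    refine Finset.sum_le_sum fun i hi => ?_
    have h4 : (‖a i‖ * ‖d i‖) ^ 2 ≤ c ^ 2 := pow_le_pow_left₀ (by positivity) (hcd i hi) 2
    calc (α i * ‖d i‖ ^ 2) ^ 2 * ‖a i‖ ^ 2 =
          (‖a i‖ * ‖d i‖) ^ 2 * (α i ^ 2 * ‖d i‖ ^ 2) := by ring
      _ ≤ c ^ 2 * (α i ^ 2 * ‖d i‖ ^ 2) := mul_le_mul_of_nonneg_right h4 (by positivity)
  have hD0 : 0 ≤ D := norm_nonneg _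
  have h5 : ‖y‖ ≤ c * D := abs_le_of_sq_le_sq' h3 (by positivity) |>.2
  have h6 : D ^ 2 ≤ c * D * ‖x‖ := by
    rw [← h2]
    exact (real_inner_le_norm y x).trans (mul_le_mul_of_nonneg_right h5 (norm_nonneg _))
  rcases hD0.eq_or_lt with h7 | h7
  · rw [← h7]
    positivity
  · nlinarith

end Pool.Agent.Helper53.BQ
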