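import Pool.Agent.Helper53.BQ.SLa

/-!
# Row SL, part b: the shifted averages and the scale
-/

set_option autoImplicit false

namespace Pool.Agent.Helper53.BQ

open MeasureTheory Set Filter Topology

theorem mu_real (N i : ℕ) (hi : i < N) {c : ℝ} (hc : ((i : ℝ) + 1) / N ≤ c) :
    mu.real (Ioc ((i : ℝ) / N) (((i : ℝ) + 1) / N) ∩ Iic c) = 1 / N := by
  have hN : (0 : ℝ) < N := by
    have : 0 < N := by omega
    exact_mod_cast this
  have h1 : Ioc ((i : ℝ) / N) (((i : ℝ) + 1) / N) ∩ Iic c =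
      Ioc ((i : ℝ) / N) (((i : ℝ) + 1) / N) := by
    refine inter_eq_left.2 fun t ht => ?_
    exact ht.2.trans hc
  have h2 : Ioc ((i : ℝ) / N) (((i : ℝ) + 1) / N) ⊆ Ioc (0 : ℝ) 1 := by
    intro t ht
    refine ⟨lt_of_le_of_lt (by positivity) ht.1, ht.2.trans ?_⟩
    rw [div_le_one hN]
    have : i + 1 ≤ N := hi
    exact_mod_cast this
  rw [h1]
  unfold Measure.real
  rw [Measure.restrict_apply measurableSet_Ioc, inter_eq_left.2 h2, Real.volume_Ioc]
  rw [ENNReal.toReal_ofReal]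
  · field_simp
    ring
  · have : ((i : ℝ) + 1) / N - (i : ℝ) / N = 1 / N := by
      field_simp
      ring
    rw [this]
    positivity

/-- the indicator function of `(-∞, c]` -/
noncomputable def yy (c : ℝ) : HH :=
  indicatorConstLp 2 (measurableSet_Iic (a := c)) (measure_ne_top mu _) (1 : ℝ)

theorem bb_yy (N i : ℕ) (c : ℝ) : inner ℝ (bb N i) (yy c) =
    √(N : ℝ) * mu.real (Ioc ((i : ℝ) / N) (((i : ℝ) + 1) / N) ∩ Iic c) := by
  unfold bb yy
  rw [inner_smul_left, L2.real_inner_indicatorConstLp_one_indicatorConstLp_one]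
  simp

theorem bb_yy_nonneg (N i : ℕ) (c : ℝ) : 0 ≤ (inner ℝ (bb N i) (yy c) : ℝ) := by
  rw [bb_yy]
  positivity

theorem bb_yy_eq (N i : ℕ) (hi : i < N) {c : ℝ} (hc : ((i : ℝ) + 1) / N ≤ c) :
    (inner ℝ (bb N i) (yy c) : ℝ) = √(N : ℝ) * (1 / N) := by
  rw [bb_yy, mu_real N i hi hc]

theorem bb_norm (N i : ℕ) (hi : i < N) : ‖bb N i‖ = 1 := by
  have hN : (0 : ℝ) < N := by
    have : 0 < N := by omega
    exact_mod_cast this
  have h1 : ‖bb N i‖ ^ 2 = 1 := by
    rw [← real_inner_self_eq_norm_sq]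
    unfold bb
    rw [inner_smul_left, inner_smul_right,
      L2.real_inner_indicatorConstLp_one_indicatorConstLp_one]
    have h2 := mu_real N i hi (le_refl (((i : ℝ) + 1) / N))
    have h3 : Ioc ((i : ℝ) / N) (((i : ℝ) + 1) / N) ∩ Ioc ((i : ℝ) / N) (((i : ℝ) + 1) / N) =
        Ioc ((i : ℝ) / N) (((i : ℝ) + 1) / N) ∩ Iic (((i : ℝ) + 1) / N) := by
      rw [inter_self]
      exact (inter_eq_left.2 fun t ht => ht.2).symm
    rw [h3, h2]
    simp only [conj_trivial]
    have h4 := Real.mul_self_sqrt hN.le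
    calc √(N : ℝ) * (√(N : ℝ) * (1 / N)) = (√(N : ℝ) * √(N : ℝ)) * (1 / N) := by ring
      _ = 1 := by
        rw [h4]
        field_simp
  have h5 := norm_nonneg (bb N i)
  nlinarith

theorem yy_norm (c : ℝ) : ‖yy c‖ ^ 2 = max 0 (min c 1) := by
  rw [← real_inner_self_eq_norm_sq]
  unfold yy
  rw [L2.real_inner_indicatorConstLp_one_indicatorConstLp_one, inter_self]
  unfold Measure.real
  rw [Measure.restrict_apply measurableSet_Iic]
  have h1 : Iic c ∩ Ioc (0 : ℝ) 1 = Ioc 0 (min c 1) := by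
    ext t
    simp only [mem_inter_iff, mem_Iic, mem_Ioc, le_min_iff]
    tauto
  rw [h1, Real.volume_Ioc, sub_zero, ENNReal.toReal_ofReal', max_comm]

/-- the shifted averages -/
noncomputable def SS (N : ℕ) : HH →L[ℝ] HH :=
  ∑ i ∈ Finset.range (N - 2), (innerSL ℝ (bb N i)).smulRight (bb N (i + 2))

theorem SS_apply (N : ℕ) (x : HH) :
    SS N x = ∑ i ∈ Finset.range (N - 2), (inner ℝ (bb N i) x : ℝ) • bb N (i + 2) := by
  unfold SS
  rw [ContinuousLinearMap.sum_apply]
  rfl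

theorem bb_orth0 {N i j : ℕ} (hN : 0 < N) (hij : i ≠ j) :
    (inner ℝ (bb N i) (bb N j) : ℝ) = 0 := by
  have h1 : ∀ t : ℝ, |(fun _ : ℝ => (1 : ℝ)) t| ≤ 1 := fun t => by simp
  have h := bb_orth (φ := fun _ => (1 : ℝ)) measurable_const h1 hN hij
  have h2 : ∀ f : HH, mop (fun _ => (1 : ℝ)) measurable_const 1 h1 f = f := by
    intro f
    refine Lp.ext ?_
    filter_upwards [mop_coe (fun _ => (1 : ℝ)) measurable_const 1 h1 f] with t ht
    rw [ht, one_mul]
  rwa [h2, h2] at h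

theorem SS_norm (N : ℕ) (x : HH) : ‖SS N x‖ ≤ ‖x‖ := by
  rw [SS_apply]
  have h := OL (Finset.range (N - 2)) (fun i => bb N i) (fun i => bb N (i + 2)) 1 zero_le_one
    (fun i hi j hj hij => bb_orth0 (by have := Finset.mem_range.1 hi; omega) hij)
    (fun i hi j hj hij => bb_orth0 (by have := Finset.mem_range.1 hi; omega) (by omega))
    (fun i hi => by
      have := Finset.mem_range.1 hi
      rw [bb_norm N i (by omega), bb_norm N (i + 2) (by omega), one_mul]) x
  rwa [one_mul] at h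

theorem SS_yy (N : ℕ) (hN : 0 < N) (c : ℝ) : ‖SS N (yy c) - yy c‖ ^ 2 ≤ 6 / N := by
  have hN' : (0 : ℝ) < N := by exact_mod_cast hN
  set c' : ℝ := max 0 (min c 1) with hc'
  have hc0 : 0 ≤ c' := le_max_left _ _
  have hc1 : c' ≤ 1 := max_le zero_le_one (min_le_right _ _)
  have h1 : ‖SS N (yy c) - yy c‖ ^ 2 =
      ‖SS N (yy c)‖ ^ 2 - 2 * inner ℝ (SS N (yy c)) (yy c) + ‖yy c‖ ^ 2 :=
    norm_sub_sq_real _ _
  have h2 : ‖SS N (yy c)‖ ^ 2 ≤ ‖yy c‖ ^ 2 :=
    pow_le_pow_left₀ (norm_nonneg _) (SS_norm N _) 2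
  have h3 : inner ℝ (SS N (yy c)) (yy c) = ∑ i ∈ Finset.range (N - 2),
      (inner ℝ (bb N i) (yy c) : ℝ) * inner ℝ (bb N (i + 2)) (yy c) := by
    rw [SS_apply, sum_inner]
    refine Finset.sum_congr rfl fun i _ => ?_
    rw [inner_smul_left]
    simp
  set m : ℕ := ⌊(N : ℝ) * c'⌋₊ with hm
  have hmN : m ≤ N := by
    have : (N : ℝ) * c' ≤ N := by nlinarith
    calc m ≤ ⌊(N : ℝ)⌋₊ := Nat.floor_le_floor this
      _ = N := Nat.floor_natCast N
  have hm1 : (m : ℝ) ≤ N * c' := Nat.floor_le (by positivity)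
  have hm2 : (N : ℝ) * c' < m + 1 := Nat.lt_floor_add_one _
  have h4 : ∑ i ∈ Finset.range (m - 2), (1 / (N : ℝ)) ≤ ∑ i ∈ Finset.range (N - 2),
      (inner ℝ (bb N i) (yy c) : ℝ) * inner ℝ (bb N (i + 2)) (yy c) := by
    refine le_trans ?_ (Finset.sum_le_sum_of_subset_of_nonneg
      (Finset.range_subset_range.2 (by omega : m - 2 ≤ N - 2)) fun i _ _ =>
      mul_nonneg (bb_yy_nonneg N i c) (bb_yy_nonneg N (i + 2) c))
    refine Finset.sum_le_sum fun i hi => ?_
    have hi1 := Finset.mem_range.1 hi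
    have hi2 : i + 3 ≤ m := by omega
    have hi3 : ((i : ℝ) + 3) / N ≤ c' := by
      rw [div_le_iff₀ hN']
      have : ((i + 3 : ℕ) : ℝ) ≤ m := by exact_mod_cast hi2
      push_cast at this
      linarith
    have hi4 : c' ≤ c := by
      have h5 : 0 < c' := lt_of_lt_of_le (by positivity) hi3
      rcases max_cases 0 (min c 1) with h | h
      · rw [hc', h.1] at h5
        exact absurd h5 (lt_irrefl _)
      · rw [hc', h.1]
        exact min_le_left _ _
    have hi5 : ((i : ℝ) + 1) / N ≤ c := by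
      refine le_trans ?_ (hi3.trans hi4)
      exact div_le_div_of_nonneg_right (by linarith) hN'.le
    have hi6 : (((i + 2 : ℕ) : ℝ) + 1) / N ≤ c := by
      refine le_trans (le_of_eq ?_) (hi3.trans hi4)
      push_cast
      ring
    rw [bb_yy_eq N i (by omega) hi5, bb_yy_eq N (i + 2) (by omega) hi6]
    have h4 := Real.mul_self_sqrt hN'.le
    refine le_of_eq ?_
    calc 1 / (N : ℝ) = (N : ℝ) * (1 / N) * (1 / N) := by field_simp
      _ = (√(N : ℝ) * √(N : ℝ)) * (1 / N) * (1 / N) := by rw [h4]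
      _ = √(N : ℝ) * (1 / N) * (√(N : ℝ) * (1 / N)) := by ring
  rw [Finset.sum_const, Finset.card_range, nsmul_eq_mul] at h4
  have h6 : c' - 3 / N ≤ ((m - 2 : ℕ) : ℝ) * (1 / N) := by
    have h7 : (m : ℝ) - 2 ≤ ((m - 2 : ℕ) : ℝ) := by
      have : (m : ℝ) ≤ ((m - 2 : ℕ) : ℝ) + 2 := by
        have : m ≤ (m - 2) + 2 := by omega
        exact_mod_cast this
      linarith
    have h8 : (N : ℝ) * c' - 3 ≤ ((m - 2 : ℕ) : ℝ) := by linarith
    calc c' - 3 / N = ((N : ℝ) * c' - 3) * (1 / N) := by field_simp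
      _ ≤ _ := mul_le_mul_of_nonneg_right h8 (by positivity)
  rw [h1, h3]
  have h9 := yy_norm c
  have h10 : (6 : ℝ) / N = 2 * (3 / N) := by ring
  rw [h10]
  linarith

theorem yy_total (f : HH) (h : ∀ c, (inner ℝ (yy c) f : ℝ) = 0) : f = 0 := by
  have hint : Integrable (f : ℝ → ℝ) mu := (Lp.memLp f).integrable (by norm_num)
  have h1 : ∀ c : ℝ, ∫ t in Iic c, (f : ℝ → ℝ) t ∂mu = 0 := by
    intro c
    have h2 := L2.inner_indicatorConstLp_one (𝕜 := ℝ) (measurableSet_Iic (a := c))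
      (measure_ne_top mu _) f
    rw [← h2]
    exact h c
  have htot : ∫ t, (f : ℝ → ℝ) t ∂mu = 0 := by
    have h2 := h1 1
    rw [Measure.restrict_restrict measurableSet_Iic] at h2
    have h3 : Iic (1 : ℝ) ∩ Ioc 0 1 = Ioc 0 1 := by
      ext t
      simp only [mem_inter_iff, mem_Iic, mem_Ioc]
      tauto
    rwa [h3] at h2
  have h2 : ∀ s : Set ℝ, MeasurableSet s → ∫ t in s, (f : ℝ → ℝ) t ∂mu = 0 := by
    intro s hs
    refine MeasurableSpace.induction_on_inter
      (C := fun s _ => ∫ t in s, (f : ℝ → ℝ) t ∂mu = 0)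
      (s := range (Iic : ℝ → Set ℝ)) (borel_eq_generateFrom_Iic ℝ ▸
        (BorelSpace.measurable_eq : (inferInstance : MeasurableSpace ℝ) = borel ℝ))
      isPiSystem_Iic ?_ ?_ ?_ ?_ s hs
    · simp
    · rintro t ⟨c, rfl⟩
      exact h1 c
    · intro t ht h3
      have h4 := integral_add_compl ht hint
      rw [h3, zero_add, htot] at h4
      exact h4
    · intro g hd hg h3
      rw [integral_iUnion hg hd hint.integrableOn]
      simp [h3]
  have h3 := Lp.ae_eq_zero_of_forall_setIntegral_eq_zero f (by norm_num) (by norm_num)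
    (fun s _ _ => hint.integrableOn) (fun s hs _ => h2 s hs)
  exact Lp.ext (h3.trans (Lp.coeFn_zero _ _ _).symm)

theorem SS_tendsto (x : HH) : Tendsto (fun n : ℕ => SS (n + 1) x) atTop (𝓝 x) := by
  let K : Submodule ℝ HH :=
    { carrier := {x | Tendsto (fun n : ℕ => SS (n + 1) x) atTop (𝓝 x)}
      zero_mem' := by simp
      add_mem' := by
        intro a b ha hb
        simp only [mem_setOf_eq, map_add] at *
        exact ha.add hb
      smul_mem' := by
        intro r a ha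
        simp only [mem_setOf_eq, map_smul] at *
        exact ha.const_smul r }
  have hKc : IsClosed (K : Set HH) := by
    refine isClosed_of_closure_subset fun x hx => ?_
    show Tendsto (fun n : ℕ => SS (n + 1) x) atTop (𝓝 x)
    rw [Metric.tendsto_atTop]
    intro ε hε
    obtain ⟨z, hz, hxz⟩ := Metric.mem_closure_iff.1 hx (ε / 3) (by positivity)
    have hz' : Tendsto (fun n : ℕ => SS (n + 1) z) atTop (𝓝 z) := hz
    rw [Metric.tendsto_atTop] at hz'
    obtain ⟨n0, hn0⟩ := hz' (ε / 3) (by positivity)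
    refine ⟨n0, fun n hn => ?_⟩
    have h1 := hn0 n hn
    have h2 : dist (SS (n + 1) x) (SS (n + 1) z) ≤ dist x z := by
      rw [dist_eq_norm, dist_eq_norm, ← map_sub]
      exact SS_norm _ _
    have h3 : dist z x < ε / 3 := by rwa [dist_comm]
    calc dist (SS (n + 1) x) x ≤ dist (SS (n + 1) x) (SS (n + 1) z) +
          dist (SS (n + 1) z) z + dist z x := dist_triangle4 _ _ _ _
      _ < ε := by linarith
  have hyK : ∀ c, yy c ∈ K := by
    intro c
    show Tendsto (fun n : ℕ => SS (n + 1) (yy c)) atTop (𝓝 (yy c))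
    rw [tendsto_iff_norm_sub_tendsto_zero]
    have h1 : Tendsto (fun n : ℕ => √(6 / ((n + 1 : ℕ) : ℝ))) atTop (𝓝 0) := by
      have h2 : Tendsto (fun n : ℕ => 6 / ((n + 1 : ℕ) : ℝ)) atTop (𝓝 0) :=
        (tendsto_const_div_atTop_nhds_zero_nat 6).comp (tendsto_add_atTop_nat 1)
      have h3 := (Real.continuous_sqrt.tendsto 0).comp h2
      rwa [Real.sqrt_zero] at h3
    refine squeeze_zero (fun n => norm_nonneg _) (fun n => ?_) h1
    exact Real.le_sqrt_of_sq_le (SS_yy (n + 1) (by omega) c)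
  have hKt : Kᗮ = ⊥ := by
    rw [Submodule.eq_bot_iff]
    intro f hf
    refine yy_total f fun c => ?_
    exact (Submodule.mem_orthogonal K f).1 hf _ (hyK c)
  have hcomp : IsComplete (K : Set HH) := hKc.isComplete
  haveI : CompleteSpace K := completeSpace_coe_iff_isComplete.2 hcomp
  have hK : K = ⊤ := K.orthogonal_eq_bot_iff.1 hKt
  have hx : x ∈ K := by
    rw [hK]
    trivial
  exact hx

end Pool.Agent.Helper53.BQ
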